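import Pool.Agent.Helper17.PP.GoalsC2

/-!
# Project PP, packet C_LRG (the large moduli)
-/

namespace Pool.Agent.Helper9.PP

open Finset Pool.Agent.Helper17.PP

section Basic

variable {p : ℕ} {B B₀ k U Λ C : Type} [Field k] [AddCommGroup U] [Module k U]
    [AddCommGroup Λ] [Module k Λ] [AddCommGroup C] (S : Sys p B B₀ k U Λ C)

open Classical in
/-- The split primes of `s` in the blocks `< j`. -/
noncomputable def rsj (j : ℕ) (s : Finset B) : Finset B :=
  s.filter fun q' ↦ S.spl q' ∧ S.bl q' < j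

open Classical in
/-- The split primes of `s` in the blocks `≠ j`, `≤ th E j`. -/
noncomputable def rgj (E j : ℕ) (s : Finset B) : Finset B :=
  s.filter fun q' ↦ S.spl q' ∧ S.bl q' ≠ j ∧ S.bl q' ≤ th E j

open Classical in
/-- The label function `c` on `rsj`. -/
noncomputable def cc (j : ℕ) (s : Finset B) (c : B → k) : B → k :=
  fun q' ↦ if q' ∈ rsj S j s then c q' else 0

open Classical in
/-- The label function `c` in the blocks `< j`. -/
noncomputable def ct (j : ℕ) (c : B → k) : B → k :=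
  fun q' ↦ if S.bl q' < j then c q' else 0

open Classical in
theorem rs_insert {j : ℕ} {s : Finset B} {q : B} (hq : q ∉ s) (hj : S.bl q = j) :
    S.rs (insert q s) q = rsj S j s := by
  unfold Sys.rs rsj
  rw [erase_insert hq, hj]

open Classical in
theorem rg_insert {E j : ℕ} {s : Finset B} {q : B} (hq : q ∉ s) (hj : S.bl q = j) :
    S.rg E (insert q s) q = rgj S E j s := by
  unfold Sys.rg rgj
  rw [erase_insert hq, hj]

open Classical in
theorem trc_insert {j : ℕ} {s : Finset B} {q : B} (hq : q ∉ s) (hj : S.bl q = j) (t : k)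
    (c : B → k) :
    S.trc (insert q s) q t c = fun q' ↦ if q' = q then t else cc S j s c q' := by
  unfold Sys.trc cc
  rw [rs_insert S hq hj]

open Classical in
theorem lam_insert {j : ℕ} {s : Finset B} {q : B} (hq : q ∉ s) (hj : S.bl q = j) (t : k)
    (c : B → k) :
    ∑ q' ∈ insert q s, S.lam q' (S.trc (insert q s) q t c q') =
      S.lam q t + ∑ q' ∈ s, S.lam q' (cc S j s c q') := by
  rw [trc_insert S hq hj, sum_insert hq]
  congr 1
  · simp
  · refine sum_congr rfl fun q' hq' ↦ ?_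
    have h : q' ≠ q := fun h ↦ hq (h ▸ hq')
    simp [h]

open Classical in
theorem nm_insert {s : Finset B} {q : B} (hq : q ∉ s) :
    S.nm (insert q s) = S.N q * S.nm s := by
  unfold Sys.nm
  rw [prod_insert hq]

open Classical in
theorem nm_union {D r : Finset B} (h : Disjoint D r) : S.nm (D ∪ r) = S.nm D * S.nm r := by
  unfold Sys.nm
  rw [prod_union h]

theorem one_le_nm (s : Finset B) : 1 ≤ S.nm s := by
  unfold Sys.nm
  exact Nat.one_le_iff_ne_zero.2 (prod_ne_zero_iff.2 fun q _ ↦ by have := S.two_le q; omega)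

theorem N_le_nm {s : Finset B} {q : B} (hq : q ∈ s) : S.N q ≤ S.nm s := by
  unfold Sys.nm
  exact Nat.le_of_dvd (one_le_nm S s) (dvd_prod_of_mem _ hq)

open Classical in
theorem mem_blk {j : ℕ} {q : B} : q ∈ S.blk j ↔ S.bl q = j := by
  unfold Sys.blk
  simp only [mem_filter, Set.Finite.mem_toFinset, Set.mem_ofPred_eq, and_iff_right_iff_imp]
  intro h
  have := Nat.lt_pow_succ_log_self (b := 2) (by norm_num) (S.N q)
  unfold Sys.bl at h
  rw [h] at this
  exact this.le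

open Classical in
theorem mem_mods {i : ℕ} {D : Finset B} : D ∈ S.mods i ↔ Nat.log 2 (S.nm D) = i := by
  unfold Sys.mods
  simp only [mem_filter, mem_powerset, and_iff_right_iff_imp]
  intro h q hq
  unfold Sys.upto
  simp only [Set.Finite.mem_toFinset, Set.mem_ofPred_eq]
  have h2 : ⌊((2 : ℝ) ^ (i + 1))⌋₊ = 2 ^ (i + 1) := by
    have : ((2 : ℝ) ^ (i + 1)) = ((2 ^ (i + 1) : ℕ) : ℝ) := by push_cast; rfl
    rw [this, Nat.floor_natCast]
  rw [h2]
  have h3 := Nat.lt_pow_succ_log_self (b := 2) (by norm_num) (S.nm D)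
  rw [h] at h3
  exact (N_le_nm S hq).trans h3.le

open Classical in
theorem R_insert [Algebra (ZMod p) k] {j : ℕ} {s : Finset B} {q : B} (hq : q ∉ s)
    (hj : S.bl q = j) (t : k) (c : B → k) (x : U) {q' : B} (hq' : q' ∈ s) :
    S.R (insert q s) x (S.trc (insert q s) q t c) q' =
      (t * S.a q' q + cc S j s c q' * algebraMap (ZMod p) k (S.kap q' q)) +
        S.R s x (cc S j s c) q' := by
  have hne : q ≠ q' := fun h ↦ hq (h ▸ hq')
  have he : (insert q s).erase q' = insert q (s.erase q') := erase_insert_of_ne hne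
  have hn : q ∉ s.erase q' := fun h ↦ hq (mem_of_mem_erase h)
  rw [trc_insert S hq hj]
  unfold Sys.R
  rw [he, sum_insert hn, sum_insert hn]
  have h1 : ∑ x ∈ s.erase q', (if x = q then t else cc S j s c x) * S.a q' x =
      ∑ x ∈ s.erase q', cc S j s c x * S.a q' x := by
    refine sum_congr rfl fun y hy ↦ ?_
    have h : y ≠ q := fun h ↦ hn (h ▸ hy)
    simp [h]
  rw [h1]
  simp only [if_true, if_neg hne.symm]
  ring

open Classical in
/-- The conditions on `D`, for fixed `r`. -/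
structure Dc (E i j : ℕ) (P r D : Finset B) : Prop where
  sub : D ⊆ P
  dis : Disjoint D r
  blk : ∀ q' ∈ D ∪ r, S.spl q' → S.bl q' ≠ j
  spl : ∀ q' ∈ D, S.spl q' ∧ S.bl q' ≤ th E j
  log : Nat.log 2 (S.nm D) = i
  small : ∀ D' ⊆ D ∪ r, (∀ q' ∈ D', S.bl q' ≤ th E j) → S.nm D' < 2 ^ tb E j
  inj : Set.InjOn S.bs ((D ∪ r : Finset B) : Set B)

open Classical in
theorem cond_iff {E i j : ℕ} {P r D : Finset B} {q : B} (hD : D ⊆ P) (hr : Disjoint D r)
    (hq : q ∉ D ∪ r) :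
    (S.Fam (insert q (D ∪ r)) ∧ (S.Wt E (insert q (D ∪ r)) q ∧ S.bl q = j) ∧
      (D ⊆ S.rg E (insert q (D ∪ r)) q ∧ Nat.log 2 (S.nm D) = i)) ↔
    (S.bl q = j ∧ S.spl q) ∧ Dc S E i j P r D ∧ S.cls q + ∑ q' ∈ D ∪ r, S.cls q' = S.cl₀ := by
  constructor
  · rintro ⟨⟨hF1, hF2⟩, ⟨hW, hj⟩, hDr, hlog⟩
    rw [rg_insert S hq hj] at hDr
    refine ⟨⟨hj, hW.spl⟩, ⟨hD, hr, ?_, ?_, hlog, ?_, ?_⟩, ?_⟩
    · intro q' hq' hs hb
      have hne : q' ≠ q := fun h ↦ hq (h ▸ hq')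
      exact hW.uniq q' (mem_insert_of_mem hq') hne hs (hb.trans hj.symm)
    · intro q' hq'
      have := hDr hq'
      unfold rgj at this
      rw [mem_filter] at this
      exact ⟨this.2.1, this.2.2.2⟩
    · intro D' hD' h
      have := hW.small D' (hD'.trans (subset_insert _ _)) (fun h ↦ hq (hD' h))
      rw [hj] at this
      exact this h
    · refine hF1.mono ?_
      exact_mod_cast subset_insert _ _
    · rw [← sum_insert hq]
      exact hF2
  · rintro ⟨⟨hj, hs⟩, hDc, hcl⟩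
    refine ⟨⟨?_, ?_⟩, ⟨⟨mem_insert_self _ _, hs, ?_, ?_⟩, hj⟩, ?_, hDc.log⟩
    · rw [coe_insert, Set.injOn_insert (by exact_mod_cast hq)]
      refine ⟨hDc.inj, ?_⟩
      rintro ⟨q', hq', he⟩
      have hs' : S.spl q' := (S.bsS q' q he).2 hs
      have hb' : S.bl q' = j := by
        rw [← hj]
        unfold Sys.bl
        rw [S.bsN q' q he]
      exact hDc.blk q' (by exact_mod_cast hq') hs' hb'
    · rw [sum_insert hq]
      exact hcl
    · intro q' hq' hne hs' hb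
      exact hDc.blk q' (mem_of_mem_insert_of_ne hq' hne) hs' (hb.trans hj)
    · intro D' hD' hqD' h
      rw [hj] at h ⊢
      refine hDc.small D' ?_ h
      intro a ha
      exact mem_of_mem_insert_of_ne (hD' ha) (fun h ↦ hqD' (h ▸ ha))
    · rw [rg_insert S hq hj]
      intro a ha
      unfold rgj
      rw [mem_filter]
      have h1 := hDc.spl a ha
      exact ⟨mem_union_left _ ha, h1.1, hDc.blk a (mem_union_left _ ha) h1.1, h1.2⟩

open Classical in
theorem y_iff {E i j : ℕ} {P r D : Finset B} (h : Dc S E i j P r D) (y : B → k) :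
    (∀ q' ∈ rgj S E j (D ∪ r), y q' ≠ 0 ↔ q' ∈ D) ↔
      (∀ q' ∈ rgj S E j r, y q' = 0) ∧ ∀ q' ∈ D, y q' ≠ 0 := by
  have hdis : ∀ q' ∈ r, q' ∉ D := fun q' hq' hD ↦
    (disjoint_left.1 h.dis) hD hq'
  constructor
  · intro hy
    constructor
    · intro q' hq'
      unfold rgj at hq'
      rw [mem_filter] at hq'
      have h1 : q' ∈ rgj S E j (D ∪ r) := by
        unfold rgj
        rw [mem_filter]
        exact ⟨mem_union_right _ hq'.1, hq'.2⟩
      by_contra hne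
      exact hdis q' hq'.1 ((hy q' h1).1 hne)
    · intro q' hq'
      have h1 : q' ∈ rgj S E j (D ∪ r) := by
        unfold rgj
        rw [mem_filter]
        have h1 := h.spl q' hq'
        exact ⟨mem_union_left _ hq', h1.1, h.blk q' (mem_union_left _ hq') h1.1, h1.2⟩
      exact (hy q' h1).2 hq'
  · rintro ⟨h1, h2⟩ q' hq'
    unfold rgj at hq'
    rw [mem_filter, mem_union] at hq'
    rcases hq'.1 with hD | hr
    · exact ⟨fun _ ↦ hD, fun _ ↦ h2 q' hD⟩
    · have h3 : q' ∈ rgj S E j r := by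
        unfold rgj
        rw [mem_filter]
        exact ⟨hr, hq'.2⟩
      have h4 := h1 q' h3
      constructor
      · intro h5
        exact absurd h4 h5
      · intro h5
        exact absurd h5 (hdis q' hr)

open Classical in
theorem card_rsj {j : ℕ} {r D : Finset B} (h : Disjoint D r) :
    (rsj S j (D ∪ r)).card = (rsj S j D).card + (rsj S j r).card := by
  unfold rsj
  rw [filter_union, card_union_of_disjoint]
  exact disjoint_filter_filter h

open Classical in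
theorem cc_eq_ct {E i j : ℕ} {P r D : Finset B} (h : Dc S E i j P r D) (c : B → k) {q' : B}
    (hq' : q' ∈ D) : cc S j (D ∪ r) c q' = ct S j c q' := by
  unfold cc ct rsj
  have h1 := (h.spl q' hq').1
  have h2 : q' ∈ D ∪ r := mem_union_left _ hq'
  simp only [mem_filter, h1, h2, true_and]

open Classical in
/-- The phase which depends on `D`. -/
noncomputable def Phi [Algebra (ZMod p) k] (ψ : AddChar k ℂ) (χ : AddChar Λ ℂ) (j : ℕ) (x : U)
    (c y : B → k) (D r : Finset B) : ℂ :=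
  χ (S.lam₀ x + ∑ q' ∈ D ∪ r, S.lam q' (cc S j (D ∪ r) c q')) *
    ∏ q' ∈ D, ψ (y q' * S.R (D ∪ r) x (cc S j (D ∪ r) c) q')

theorem norm_Phi [Algebra (ZMod p) k] [Finite k] [Finite Λ] (ψ : AddChar k ℂ)
    (χ : AddChar Λ ℂ) (j : ℕ) (x : U) (c y : B → k) (D r : Finset B) :
    ‖Phi S ψ χ j x c y D r‖ = 1 := by
  unfold Phi
  rw [norm_mul, norm_prod, AddChar.norm_apply, one_mul]
  exact prod_eq_one fun q' _ ↦ AddChar.norm_apply _ _

open Classical in
theorem phase [Algebra (ZMod p) k] (ψ : AddChar k ℂ) (χ : AddChar Λ ℂ) {E i j : ℕ}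
    {P r D : Finset B} (h : Dc S E i j P r D) {q : B} (hq : q ∉ D ∪ r) (hj : S.bl q = j)
    (x : U) (t : k) (c y : B → k) :
    χ (S.lam₀ x + ∑ q' ∈ insert q (D ∪ r),
        S.lam q' (S.trc (insert q (D ∪ r)) q t c q')) *
      ∏ q' ∈ D, ψ (y q' * S.R (insert q (D ∪ r)) x (S.trc (insert q (D ∪ r)) q t c) q') =
    χ (S.lam q t) * S.chr ψ D y (ct S j c) t q * Phi S ψ χ j x c y D r := by
  have h1 : ∏ q' ∈ D, ψ (y q' * S.R (insert q (D ∪ r)) x
      (S.trc (insert q (D ∪ r)) q t c) q') = S.chr ψ D y (ct S j c) t q *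
        ∏ q' ∈ D, ψ (y q' * S.R (D ∪ r) x (cc S j (D ∪ r) c) q') := by
    unfold Sys.chr
    rw [← prod_mul_distrib]
    refine prod_congr rfl fun q' hq' ↦ ?_
    rw [R_insert S hq hj t c x (mem_union_left _ hq'), ← AddChar.map_add_eq_mul,
      cc_eq_ct S h c hq', ← mul_add]
  rw [h1, lam_insert S hq hj]
  unfold Phi
  have h2 : S.lam₀ x + (S.lam q t + ∑ q' ∈ D ∪ r, S.lam q' (cc S j (D ∪ r) c q')) =
      S.lam q t + (S.lam₀ x + ∑ q' ∈ D ∪ r, S.lam q' (cc S j (D ∪ r) c q')) := by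
    abel
  rw [h2, AddChar.map_add_eq_mul]
  ring

open Classical in
theorem exp_eq {r D : Finset B} (h : Disjoint D r) {q : B} (hq : q ∉ D ∪ r) (X : ℝ) :
    Real.exp (-(S.nm (insert q (D ∪ r)) / X)) =
      Real.exp (-(S.N q * S.nm D / (X / S.nm r))) := by
  rw [nm_insert S hq, nm_union S h]
  congr 2
  rw [div_div_eq_mul_div]
  push_cast
  ring

end Basic

section Main

variable {p : ℕ} [Fact p.Prime] {B B₀ k U Λ C : Type} [Field k] [Fintype k]
    [Algebra (ZMod p) k] [AddCommGroup U] [Module k U] [Fintype U]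
    [AddCommGroup Λ] [Module k Λ] [Fintype Λ] [AddCommGroup C] (S : Sys p B B₀ k U Λ C)

open Classical in
/-- The term of the bilinear form. -/
noncomputable def zt (ψ : AddChar k ℂ) (j : ℕ) (X : ℝ) (r : Finset B) (χ : AddChar Λ ℂ) (x : U)
    (t : k) (c y : B → k) (q : B) (D : Finset B) : ℂ :=
  χ (S.lam q t) * ((Fintype.card k : ℂ) ^ (rsj S j D).card * Phi S ψ χ j x c y D r) *
    S.chr ψ D y (ct S j c) t q * (Real.exp (-(S.N q * S.nm D / (X / S.nm r))) : ℂ)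

open Classical in
theorem part_eq (ψ : AddChar k ℂ) (χ : AddChar Λ ℂ) {E i j : ℕ}
    {P r D : Finset B} (h : Dc S E i j P r D) {q : B} (hq : q ∉ D ∪ r) (hj : S.bl q = j)
    (X : ℝ) :
    S.part ψ E P (insert q (D ∪ r)) q D χ *
        (Real.exp (-(S.nm (insert q (D ∪ r)) / X)) : ℂ) =
      ((Fintype.card k : ℂ) ^ (rsj S j r).card /
        (Fintype.card Λ * ((lab k P).card : ℂ) ^ 2)) *
      ∑ x : U, ∑ t : k with t ≠ 0, ∑ c ∈ lab k P,
        ∑ y ∈ lab k P with (∀ q' ∈ rgj S E j r, y q' = 0),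
          if ∀ q' ∈ D, y q' ≠ 0 then zt S ψ j X r χ x t c y q D else 0 := by
  unfold Sys.part
  rw [exp_eq S h.dis hq X, rs_insert S hq hj, rg_insert S hq hj, card_rsj S h.dis, pow_add]
  have key : ∀ (x : U) (t : k) (c : B → k),
      ∑ y ∈ lab k P with (∀ q' ∈ rgj S E j (D ∪ r), y q' ≠ 0 ↔ q' ∈ D),
        χ (S.lam₀ x + ∑ q' ∈ insert q (D ∪ r),
            S.lam q' (S.trc (insert q (D ∪ r)) q t c q')) *
          ∏ q' ∈ D, ψ (y q' * S.R (insert q (D ∪ r)) x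
            (S.trc (insert q (D ∪ r)) q t c) q') =
      ∑ y ∈ lab k P with (∀ q' ∈ rgj S E j r, y q' = 0),
        if ∀ q' ∈ D, y q' ≠ 0 then
          χ (S.lam q t) * S.chr ψ D y (ct S j c) t q * Phi S ψ χ j x c y D r else 0 := by
    intro x t c
    rw [sum_filter, sum_filter]
    refine sum_congr rfl fun y _ ↦ ?_
    rw [phase S ψ χ h hq hj x t c y]
    have hy := y_iff S h y
    by_cases h1 : ∀ q' ∈ rgj S E j r, y q' = 0
    · by_cases h2 : ∀ q' ∈ D, y q' ≠ 0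
      · rw [if_pos (hy.2 ⟨h1, h2⟩), if_pos h1, if_pos h2]
      · rw [if_neg (fun h3 ↦ h2 (hy.1 h3).2), if_pos h1, if_neg h2]
    · rw [if_neg (fun h3 ↦ h1 (hy.1 h3).1), if_neg h1]
  simp only [key]
  unfold zt
  set e : ℂ := (Real.exp (-(S.N q * S.nm D / (X / S.nm r))) : ℂ)
  set a : ℂ := (Fintype.card k : ℂ) ^ (rsj S j D).card
  set b : ℂ := (Fintype.card k : ℂ) ^ (rsj S j r).card
  set n : ℂ := (Fintype.card Λ * ((lab k P).card : ℂ) ^ 2)
  have h3 : ∀ w : ℂ, a * b / n * w * e = b / n * (w * (a * e)) := by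
    intro w
    ring
  rw [h3]
  congr 1
  simp only [sum_mul]
  refine sum_congr rfl fun x _ ↦ sum_congr rfl fun t _ ↦ sum_congr rfl fun c _ ↦
    sum_congr rfl fun y _ ↦ ?_
  by_cases h2 : ∀ q' ∈ D, y q' ≠ 0
  · rw [if_pos h2, if_pos h2]
    ring
  · rw [if_neg h2, if_neg h2, zero_mul]

omit [Fintype U] in
open Classical in
theorem bil [Finite C] (ψ : AddChar k ℂ) {ψ₁ : AddChar (ZMod p) ℂ} {g : ℝ → ℝ} {K : ℕ}
    (hyp : S.Hyp ψ ψ₁ g K) (E : ℕ) (i : ℕ) {j : ℕ} (hj : 1 ≤ j) {X : ℝ} (hX : 0 < X)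
    (P r : Finset B) (χ : AddChar Λ ℂ) (x : U) {t : k} (ht : t ≠ 0) (c y : B → k) :
    ‖∑ q ∈ S.blk j with S.spl q, ∑ D ∈ S.mods i,
      if (q ∈ P ∧ Dc S E i j P r D ∧ S.cls q + ∑ q' ∈ D ∪ r, S.cls q' = S.cl₀) ∧
          ∀ q' ∈ D, y q' ≠ 0 then zt S ψ j X r χ x t c y q D else 0‖ ≤
      Nat.card C * (K * 2 ^ (i + j) * (i + 1) ^ K * (2 : ℝ) ^ (-(min i j : ℝ) / K) *
        Real.exp (-((2 : ℝ) ^ (i + j) / (2 * (X / S.nm r))))) := by
  let _ : Fintype C := Fintype.ofFinite C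
  let α : C → B → ℂ := fun γ q ↦ if q ∈ P ∧ S.cls q = γ then χ (S.lam q t) else 0
  let β : C → Finset B → ℂ := fun γ D ↦
    if (Dc S E i j P r D ∧ γ + ∑ q' ∈ D ∪ r, S.cls q' = S.cl₀) ∧ ∀ q' ∈ D, y q' ≠ 0 then
      (Fintype.card k : ℂ) ^ (rsj S j D).card * Phi S ψ χ j x c y D r else 0
  have h1 : ∀ (q : B) (D : Finset B),
      (if (q ∈ P ∧ Dc S E i j P r D ∧ S.cls q + ∑ q' ∈ D ∪ r, S.cls q' = S.cl₀) ∧
          ∀ q' ∈ D, y q' ≠ 0 then zt S ψ j X r χ x t c y q D else 0) =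
      ∑ γ : C, α γ q * β γ D * S.chr ψ D y (ct S j c) t q *
        (Real.exp (-(S.N q * S.nm D / (X / S.nm r))) : ℂ) := by
    intro q D
    rw [sum_eq_single (S.cls q)]
    · simp only [α, β]
      by_cases h2 : q ∈ P
      · by_cases h3 : (Dc S E i j P r D ∧ S.cls q + ∑ q' ∈ D ∪ r, S.cls q' = S.cl₀) ∧
          ∀ q' ∈ D, y q' ≠ 0
        · rw [if_pos ⟨⟨h2, h3.1⟩, h3.2⟩, if_pos ⟨h2, trivial⟩, if_pos h3]
          unfold zt
          ring
        · rw [if_neg (fun h4 ↦ h3 ⟨h4.1.2, h4.2⟩), if_neg h3]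
          ring
      · rw [if_neg (fun h4 ↦ h2 h4.1.1), if_neg (fun h4 ↦ h2 h4.1)]
        ring
    · intro γ _ hγ
      simp only [α]
      rw [if_neg (fun h4 ↦ hγ h4.2.symm)]
      ring
    · intro h
      exact absurd (mem_univ _) h
  simp only [h1]
  have h2 : ∑ q ∈ S.blk j with S.spl q, ∑ D ∈ S.mods i, ∑ γ : C,
      α γ q * β γ D * S.chr ψ D y (ct S j c) t q *
        (Real.exp (-(S.N q * S.nm D / (X / S.nm r))) : ℂ) =
      ∑ γ : C, ∑ q ∈ S.blk j with S.spl q, ∑ D ∈ S.mods i,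
        α γ q * β γ D * S.chr ψ D y (ct S j c) t q *
        (Real.exp (-(S.N q * S.nm D / (X / S.nm r))) : ℂ) := by
    rw [sum_comm (s := (univ : Finset C))]
    exact sum_congr rfl fun q _ ↦ sum_comm
  rw [h2]
  rw [Nat.card_eq_fintype_card]
  have hr : (0 : ℝ) < S.nm r := by exact_mod_cast one_le_nm S r
  have hk : (1 : ℝ) ≤ Fintype.card k := by
    have : 0 < Fintype.card k := Fintype.card_pos
    exact_mod_cast this
  refine (norm_sum_le_of_le _ fun γ _ ↦ hyp.bl₁ i j t y (ct S j c) (α γ) (β γ) (X / S.nm r) hj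
    ht (div_pos hX hr) ?_ ?_ ?_).trans ?_
  · intro q
    simp only [α]
    split_ifs
    · rw [AddChar.norm_apply]
    · simp
  · intro D
    simp only [β]
    split_ifs
    · rw [norm_mul, norm_Phi, mul_one, norm_pow, Complex.norm_natCast]
      refine pow_le_pow_right₀ hk ?_
      unfold rsj
      exact card_filter_le _ _
    · rw [norm_zero]
      positivity
  · intro D hD
    simp only [β] at hD
    by_cases h3 : (Dc S E i j P r D ∧ γ + ∑ q' ∈ D ∪ r, S.cls q' = S.cl₀) ∧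
          ∀ q' ∈ D, y q' ≠ 0
    · refine ⟨h3.1.1.inj.mono ?_, ?_⟩
      · exact_mod_cast subset_union_left
      · intro q hq
        have h4 := h3.1.1.spl q hq
        exact ⟨h4.1, h3.1.1.blk q (mem_union_left _ hq) h4.1, h3.2 q hq⟩
    · rw [if_neg h3] at hD
      exact absurd rfl hD
  · rw [sum_const, card_univ, nsmul_eq_mul]

theorem comm6 {A₁ A₂ A₃ A₄ A₅ A₆ : Type*} (s₁ : Finset A₁) (s₂ : Finset A₂) (s₃ : Finset A₃)
    (s₄ : Finset A₄) (s₅ : Finset A₅) (s₆ : Finset A₆) (F : A₁ → A₂ → A₃ → A₄ → A₅ → A₆ → ℂ) :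
    ∑ a₁ ∈ s₁, ∑ a₂ ∈ s₂, ∑ a₃ ∈ s₃, ∑ a₄ ∈ s₄, ∑ a₅ ∈ s₅, ∑ a₆ ∈ s₆, F a₁ a₂ a₃ a₄ a₅ a₆ =
      ∑ a₆ ∈ s₆, ∑ a₁ ∈ s₁, ∑ a₂ ∈ s₂, ∑ a₃ ∈ s₃, ∑ a₄ ∈ s₄, ∑ a₅ ∈ s₅,
        F a₁ a₂ a₃ a₄ a₅ a₆ := by
  refine (sum_congr rfl fun a₁ _ ↦ sum_congr rfl fun a₂ _ ↦ sum_congr rfl fun a₃ _ ↦
    sum_congr rfl fun a₄ _ ↦ sum_comm).trans ?_
  refine (sum_congr rfl fun a₁ _ ↦ sum_congr rfl fun a₂ _ ↦ sum_congr rfl fun a₃ _ ↦
    sum_comm).trans ?_
  refine (sum_congr rfl fun a₁ _ ↦ sum_congr rfl fun a₂ _ ↦ sum_comm).trans ?_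
  refine (sum_congr rfl fun a₁ _ ↦ sum_comm).trans ?_
  exact sum_comm

open Classical in
/-- The inner term of the sum. -/
noncomputable def Ht (ψ : AddChar k ℂ) (E i j : ℕ) (X : ℝ) (P b : Finset B) (q : B)
    (D : Finset B) : ℂ :=
  if S.Fam b ∧ (S.Wt E b q ∧ S.bl q = j) ∧ (D ⊆ S.rg E b q ∧ Nat.log 2 (S.nm D) = i) then
    ∑ χ : AddChar Λ ℂ, S.part ψ E P b q D χ * (Real.exp (-(S.nm b / X)) : ℂ) else 0

open Classical in
theorem total_eq (hdec : C_DEC) (ψ : AddChar k ℂ) (E i j : ℕ) (X : ℝ) (P : Finset B) :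
    ∑ b ∈ P.powerset with S.Fam b, ∑ q ∈ b with (S.Wt E b q ∧ S.bl q = j),
      ∑ D ∈ (S.rg E b q).powerset with Nat.log 2 (S.nm D) = i, ∑ χ : AddChar Λ ℂ,
        S.part ψ E P b q D χ * (Real.exp (-(S.nm b / X)) : ℂ) =
    ∑ r ∈ P.powerset, ∑ D ∈ (P \ r).powerset, ∑ q ∈ P \ (D ∪ r),
      Ht S ψ E i j X P (insert q (D ∪ r)) q D := by
  obtain ⟨h1, h2, -⟩ := hdec B P
  have e1 : ∑ b ∈ P.powerset with S.Fam b, ∑ q ∈ b with (S.Wt E b q ∧ S.bl q = j),
      ∑ D ∈ (S.rg E b q).powerset with Nat.log 2 (S.nm D) = i, ∑ χ : AddChar Λ ℂ,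
        S.part ψ E P b q D χ * (Real.exp (-(S.nm b / X)) : ℂ) =
      ∑ b ∈ P.powerset, ∑ q ∈ b, ∑ D ∈ (b.erase q).powerset,
        Ht S ψ E i j X P (insert q (b.erase q)) q D := by
    rw [sum_filter]
    refine sum_congr rfl fun b _ ↦ ?_
    by_cases hF : S.Fam b
    · rw [if_pos hF, sum_filter]
      refine sum_congr rfl fun q hq ↦ ?_
      rw [insert_erase hq]
      by_cases hW : S.Wt E b q ∧ S.bl q = j
      · rw [if_pos hW]
        have hs : {D ∈ (S.rg E b q).powerset | Nat.log 2 (S.nm D) = i} =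
            {D ∈ (b.erase q).powerset | D ⊆ S.rg E b q ∧ Nat.log 2 (S.nm D) = i} := by
          ext D
          simp only [mem_filter, mem_powerset]
          constructor
          · rintro ⟨h3, h4⟩
            exact ⟨h3.trans (filter_subset _ _), h3, h4⟩
          · rintro ⟨_, h3, h4⟩
            exact ⟨h3, h4⟩
        rw [hs, sum_filter]
        refine sum_congr rfl fun D _ ↦ ?_
        unfold Ht
        by_cases h3 : D ⊆ S.rg E b q ∧ Nat.log 2 (S.nm D) = i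
        · rw [if_pos h3, if_pos ⟨hF, hW, h3⟩]
        · rw [if_neg h3, if_neg (fun h4 ↦ h3 h4.2.2)]
      · rw [if_neg hW]
        refine (sum_eq_zero fun D _ ↦ ?_).symm
        unfold Ht
        rw [if_neg (fun h4 ↦ hW h4.2.1)]
    · rw [if_neg hF]
      refine (sum_eq_zero fun q hq ↦ sum_eq_zero fun D _ ↦ ?_).symm
      unfold Ht
      rw [insert_erase hq, if_neg (fun h4 ↦ hF h4.1)]
  rw [e1]
  have e2 := h1 ℂ (fun q s ↦ ∑ D ∈ s.powerset, Ht S ψ E i j X P (insert q s) q D)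
  rw [e2]
  have e3 : ∀ s ∈ P.powerset, ∑ q ∈ P \ s, ∑ D ∈ s.powerset,
      Ht S ψ E i j X P (insert q s) q D =
      ∑ D ∈ s.powerset, ∑ q ∈ P \ (D ∪ (s \ D)),
        Ht S ψ E i j X P (insert q (D ∪ (s \ D))) q D := by
    intro s _
    rw [sum_comm]
    refine sum_congr rfl fun D hD ↦ ?_
    rw [union_sdiff_of_subset (mem_powerset.1 hD)]
  rw [sum_congr rfl e3]
  exact h2 ℂ (fun D r ↦ ∑ q ∈ P \ (D ∪ r), Ht S ψ E i j X P (insert q (D ∪ r)) q D)

open Classical in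
theorem Wr_eq (ψ : AddChar k ℂ) (E i j : ℕ) (X : ℝ) (P r : Finset B) :
    ∑ D ∈ (P \ r).powerset, ∑ q ∈ P \ (D ∪ r), Ht S ψ E i j X P (insert q (D ∪ r)) q D =
      ((Fintype.card k : ℂ) ^ (rsj S j r).card /
        (Fintype.card Λ * ((lab k P).card : ℂ) ^ 2)) *
      ∑ χ : AddChar Λ ℂ, ∑ x : U, ∑ t : k with t ≠ 0, ∑ c ∈ lab k P,
        ∑ y ∈ lab k P with (∀ q' ∈ rgj S E j r, y q' = 0),
          ∑ q ∈ S.blk j with S.spl q, ∑ D ∈ S.mods i,
            if (q ∈ P ∧ Dc S E i j P r D ∧ S.cls q + ∑ q' ∈ D ∪ r, S.cls q' = S.cl₀) ∧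
              ∀ q' ∈ D, y q' ≠ 0 then zt S ψ j X r χ x t c y q D else 0 := by
  have e1 : ∀ q D, (if (q ∈ P ∧ Dc S E i j P r D ∧
        S.cls q + ∑ q' ∈ D ∪ r, S.cls q' = S.cl₀) then
      ((Fintype.card k : ℂ) ^ (rsj S j r).card /
        (Fintype.card Λ * ((lab k P).card : ℂ) ^ 2)) *
      ∑ χ : AddChar Λ ℂ, ∑ x : U, ∑ t : k with t ≠ 0, ∑ c ∈ lab k P,
        ∑ y ∈ lab k P with (∀ q' ∈ rgj S E j r, y q' = 0),
            if ∀ q' ∈ D, y q' ≠ 0 then zt S ψ j X r χ x t c y q D else 0 else 0) =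
      ((Fintype.card k : ℂ) ^ (rsj S j r).card /
        (Fintype.card Λ * ((lab k P).card : ℂ) ^ 2)) *
      ∑ χ : AddChar Λ ℂ, ∑ x : U, ∑ t : k with t ≠ 0, ∑ c ∈ lab k P,
        ∑ y ∈ lab k P with (∀ q' ∈ rgj S E j r, y q' = 0),
            if (q ∈ P ∧ Dc S E i j P r D ∧ S.cls q + ∑ q' ∈ D ∪ r, S.cls q' = S.cl₀) ∧
              ∀ q' ∈ D, y q' ≠ 0 then zt S ψ j X r χ x t c y q D else 0 := by
    intro q D
    by_cases h : (q ∈ P ∧ Dc S E i j P r D ∧ S.cls q + ∑ q' ∈ D ∪ r, S.cls q' = S.cl₀)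
    · rw [if_pos h]
      simp only [h, true_and]
    · rw [if_neg h]
      simp only [h, false_and, if_false, sum_const_zero, mul_zero]
  rw [comm6]
  have e2 : ∀ q ∈ {q ∈ S.blk j | S.spl q}, ∑ χ : AddChar Λ ℂ, ∑ x : U,
      ∑ t : k with t ≠ 0, ∑ c ∈ lab k P,
        ∑ y ∈ lab k P with (∀ q' ∈ rgj S E j r, y q' = 0), ∑ D ∈ S.mods i,
            (if (q ∈ P ∧ Dc S E i j P r D ∧ S.cls q + ∑ q' ∈ D ∪ r, S.cls q' = S.cl₀) ∧
              ∀ q' ∈ D, y q' ≠ 0 then zt S ψ j X r χ x t c y q D else 0) =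
      ∑ D ∈ S.mods i, ∑ χ : AddChar Λ ℂ, ∑ x : U,
      ∑ t : k with t ≠ 0, ∑ c ∈ lab k P,
        ∑ y ∈ lab k P with (∀ q' ∈ rgj S E j r, y q' = 0),
            if (q ∈ P ∧ Dc S E i j P r D ∧ S.cls q + ∑ q' ∈ D ∪ r, S.cls q' = S.cl₀) ∧
              ∀ q' ∈ D, y q' ≠ 0 then zt S ψ j X r χ x t c y q D else 0 := by
    intro q _
    rw [comm6]
  rw [sum_congr rfl e2, sum_comm]
  simp only [mul_sum (s := S.mods i), mul_sum (s := {q ∈ S.blk j | S.spl q}), ← e1]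
  refine sum_congr_of_eq_on_inter ?_ ?_ ?_
  · intro D hD hDi
    refine sum_eq_zero fun q _ ↦ ?_
    unfold Ht
    rw [if_neg]
    rintro ⟨-, -, -, h⟩
    exact hDi ((mem_mods S).2 h)
  · intro D _ hD
    refine sum_eq_zero fun q _ ↦ ?_
    rw [if_neg]
    rintro ⟨-, h, -⟩
    refine hD ?_
    rw [mem_powerset]
    exact subset_sdiff.2 ⟨h.sub, h.dis⟩
  · intro D hD _
    rw [mem_powerset, subset_sdiff] at hD
    refine sum_congr_of_eq_on_inter ?_ ?_ ?_
    · intro q hq hqn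
      rw [mem_sdiff] at hq
      unfold Ht
      rw [if_neg]
      intro h
      have h2 := (cond_iff S hD.1 hD.2 hq.2).1 h
      refine hqn ?_
      rw [mem_filter, mem_blk]
      exact h2.1
    · intro q hq hqn
      rw [mem_filter, mem_blk] at hq
      rw [if_neg]
      rintro ⟨h1, h2, -⟩
      refine hqn ?_
      rw [mem_sdiff]
      exact ⟨h1, fun h3 ↦ h2.blk q h3 hq.2 hq.1⟩
    · intro q hq hqb
      rw [mem_sdiff] at hq
      rw [mem_filter, mem_blk] at hqb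
      unfold Ht
      by_cases h : Dc S E i j P r D ∧ S.cls q + ∑ q' ∈ D ∪ r, S.cls q' = S.cl₀
      · rw [if_pos ((cond_iff S hD.1 hD.2 hq.2).2 ⟨hqb, h⟩), if_pos ⟨hq.1, h⟩, mul_sum]
        refine sum_congr rfl fun χ _ ↦ ?_
        exact part_eq S ψ χ h.1 hq.2 hqb.1 X
      · rw [if_neg (fun h2 ↦ h ((cond_iff S hD.1 hD.2 hq.2).1 h2).2),
          if_neg (fun h2 ↦ h h2.2)]

open Classical in
theorem Wr_le (hlab : C_LAB) [Finite C] (ψ : AddChar k ℂ) {ψ₁ : AddChar (ZMod p) ℂ}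
    {g : ℝ → ℝ} {K : ℕ} (hyp : S.Hyp ψ ψ₁ g K) (E i : ℕ) {j : ℕ} (hj : 1 ≤ j)
    (hjE : j ≤ th E j) {X : ℝ} (hX : 0 < X) {P r : Finset B} (hr : r ⊆ P) :
    ‖∑ D ∈ (P \ r).powerset, ∑ q ∈ P \ (D ∪ r),
      Ht S ψ E i j X P (insert q (D ∪ r)) q D‖ ≤
      Fintype.card U * Fintype.card k *
        (Nat.card C * (K * 2 ^ (i + j) * (i + 1) ^ K * (2 : ℝ) ^ (-(min i j : ℝ) / K) *
        Real.exp (-((2 : ℝ) ^ (i + j) / (2 * (X / S.nm r)))))) := by
  rw [Wr_eq]
  set Bd : ℝ := (Nat.card C * (K * 2 ^ (i + j) * (i + 1) ^ K *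
    (2 : ℝ) ^ (-(min i j : ℝ) / K) *
        Real.exp (-((2 : ℝ) ^ (i + j) / (2 * (X / S.nm r)))))) with hBd
  have hBd0 : 0 ≤ Bd := by positivity
  have h1 : ‖∑ χ : AddChar Λ ℂ, ∑ x : U, ∑ t : k with t ≠ 0, ∑ c ∈ lab k P,
        ∑ y ∈ lab k P with (∀ q' ∈ rgj S E j r, y q' = 0),
          ∑ q ∈ S.blk j with S.spl q, ∑ D ∈ S.mods i,
            if (q ∈ P ∧ Dc S E i j P r D ∧ S.cls q + ∑ q' ∈ D ∪ r, S.cls q' = S.cl₀) ∧
              ∀ q' ∈ D, y q' ≠ 0 then zt S ψ j X r χ x t c y q D else 0‖ ≤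
      ∑ χ : AddChar Λ ℂ, ∑ x : U, ∑ t : k with t ≠ 0, ∑ c ∈ lab k P,
        ∑ y ∈ lab k P with (∀ q' ∈ rgj S E j r, y q' = 0), Bd :=
    norm_sum_le_of_le _ fun χ _ ↦ norm_sum_le_of_le _ fun x _ ↦
      norm_sum_le_of_le _ fun t ht ↦ norm_sum_le_of_le _ fun c _ ↦
        norm_sum_le_of_le _ fun y _ ↦
          bil S ψ hyp E i hj hX P r χ x (mem_filter.1 ht).2 c y
  simp only [sum_const, nsmul_eq_mul, card_univ, AddChar.card_eq] at h1
  have h2 : Fintype.card k ^ (rgj S E j r).card *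
      ((lab k P).filter fun y ↦ ∀ q' ∈ rgj S E j r, y q' = 0).card = (lab k P).card := by
    have := (hlab B k P).2.2.2.1 (fun _ ↦ (1 : ℂ)) (rgj S E j r)
      ((filter_subset _ _).trans hr) (fun _ _ _ _ ↦ rfl)
    simp only [sum_const, nsmul_eq_mul, mul_one] at this
    exact_mod_cast this
  set ny : ℕ := ((lab k P).filter fun y ↦ ∀ q' ∈ rgj S E j r, y q' = 0).card
  set nt : ℕ := ((univ : Finset k).filter fun t ↦ t ≠ 0).card with hnt
  have hnt1 : (nt : ℝ) ≤ Fintype.card k := by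
    have : nt ≤ Fintype.card k := by
      rw [hnt, ← card_univ]
      exact card_filter_le _ _
    exact_mod_cast this
  have h3 : (rsj S j r).card ≤ (rgj S E j r).card := by
    refine card_le_card ?_
    unfold rsj rgj
    refine monotone_filter_right _ ?_
    rintro q _ ⟨hs, hb⟩
    exact ⟨hs, hb.ne, hb.le.trans hjE⟩
  have hk : 1 ≤ Fintype.card k := Fintype.card_pos
  have h4 : Fintype.card k ^ (rsj S j r).card * ny ≤ (lab k P).card := by
    rw [← h2]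
    exact Nat.mul_le_mul_right _ (Nat.pow_le_pow_right hk h3)
  have hlp : 0 < (lab k P).card := by
    rw [(hlab B k P).1]
    exact Nat.pow_pos hk
  have hL : 0 < Fintype.card Λ := Fintype.card_pos
  rw [norm_mul]
  have h5 : ‖((Fintype.card k : ℂ) ^ (rsj S j r).card /
      (Fintype.card Λ * ((lab k P).card : ℂ) ^ 2))‖ =
      (Fintype.card k : ℝ) ^ (rsj S j r).card /
      (Fintype.card Λ * ((lab k P).card : ℝ) ^ 2) := by
    rw [norm_div, norm_mul, norm_pow, norm_pow, Complex.norm_natCast, Complex.norm_natCast,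
      Complex.norm_natCast]
  rw [h5]
  set m : ℕ := (lab k P).card
  have h4' : (Fintype.card k : ℝ) ^ (rsj S j r).card * ny ≤ m := by exact_mod_cast h4
  have hm : (0 : ℝ) < m := by exact_mod_cast hlp
  have hL' : (0 : ℝ) < Fintype.card Λ := by exact_mod_cast hL
  calc (Fintype.card k : ℝ) ^ (rsj S j r).card / (Fintype.card Λ * (m : ℝ) ^ 2) * _
      ≤ (Fintype.card k : ℝ) ^ (rsj S j r).card / (Fintype.card Λ * (m : ℝ) ^ 2) *
        (Fintype.card Λ * (Fintype.card U * (nt * (m * (ny * Bd))))) :=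
        mul_le_mul_of_nonneg_left h1 (by positivity)
    _ = ((Fintype.card k : ℝ) ^ (rsj S j r).card * ny / m) *
        (Fintype.card U * nt * Bd) := by
        field_simp
    _ ≤ 1 * (Fintype.card U * Fintype.card k * Bd) := by
        refine mul_le_mul ((div_le_one hm).2 h4') ?_ (by positivity) zero_le_one
        gcongr
    _ = _ := by rw [one_mul]

end Main

open Classical in
/-- **C_LRG** (the large moduli). -/
theorem c_lrg (hlab : C_LAB) (hdec : C_DEC) : C_LRG := by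
  intro p _ B B₀ k U Λ C _ _ _ _ _ _ _ _ _ _ _ S ψ ψ₁ g K hyp
  refine ⟨2 * K ^ 3 * Fintype.card U * Fintype.card k * Nat.card C, ?_⟩
  intro E i j X P hj hjE hX
  have hX0 : 0 < X := lt_of_lt_of_le one_pos hX
  rw [total_eq S hdec]
  refine (norm_sum_le_of_le _ fun r hr ↦
    Wr_le S hlab ψ hyp E i hj hjE hX0 (mem_powerset.1 hr)).trans ?_
  set Y : ℝ := 2 * X / 2 ^ (i + j) with hY
  have hY0 : 0 < Y := by positivity
  have hYX : Y ≤ X := by
    rw [hY, div_le_iff₀ (by positivity)]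
    have : (2 : ℝ) ^ 1 ≤ 2 ^ (i + j) := pow_le_pow_right₀ (by norm_num) (by omega)
    nlinarith
  have h1 := hyp.ht (fun _ ↦ 1) (fun q ↦ ⟨zero_le_one, by
    have : (0 : ℝ) ≤ Fintype.card k := Nat.cast_nonneg _
    linarith⟩) Y hY0 P
  simp only [prod_const_one, one_mul, sub_self, zero_div, sum_const_zero, Real.exp_zero,
    mul_one] at h1
  have hK : (1 : ℝ) ≤ K := by exact_mod_cast hyp.one_le
  have hgY : 0 ≤ g Y := zero_le_one.trans (hyp.g_one Y)
  have h2 : ∑ b ∈ P.powerset, Real.exp (-(S.nm b / Y)) ≤ K * (Y * (K * g X)) := by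
    refine h1.trans ?_
    refine mul_le_mul_of_nonneg_left ?_ (by positivity)
    have h3 : Y * min 1 Y * g Y ≤ Y * 1 * g Y := by
      gcongr
      exact min_le_left _ _
    refine h3.trans ?_
    rw [mul_one]
    exact mul_le_mul_of_nonneg_left (hyp.g_mono Y X hYX) hY0.le
  have h3 : ∀ r, Real.exp (-((2 : ℝ) ^ (i + j) / (2 * (X / S.nm r)))) =
      Real.exp (-(S.nm r / Y)) := by
    intro r
    have hr : (0 : ℝ) < S.nm r := by exact_mod_cast one_le_nm S r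
    congr 2
    rw [hY]
    field_simp
  simp only [h3]
  simp only [← mul_sum]
  set T : ℝ := ∑ b ∈ P.powerset, Real.exp (-(S.nm b / Y))
  set w : ℝ := (2 : ℝ) ^ (-(min i j : ℝ) / K)
  have hw : 0 ≤ w := by positivity
  calc (Fintype.card U : ℝ) * Fintype.card k *
        (Nat.card C * (K * 2 ^ (i + j) * (i + 1) ^ K * w * T))
      ≤ (Fintype.card U : ℝ) * Fintype.card k *
        (Nat.card C * (K * 2 ^ (i + j) * (i + 1) ^ K * w * (K * (Y * (K * g X))))) := by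
        gcongr
    _ = _ := by
        rw [hY]
        push_cast
        field_simp

end Pool.Agent.Helper9.PP
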